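import Pool.Agent.Q235.FE.MomR

/-!
# Twisted shifted moments of truncated quadratic `L`-functions over numbers with few changed digits

The multiple Dirichlet series `A_M(s₁, …, s_k; w)` of the problem has its first pole at `w = 1`, with the residue `T_M`,
`2 ζ(2) T_M = ∑ a(M n₁ ⋯ n_k) ∏ n_j^{-s_j}`, the sum over the `n_j` for which `M n₁ ⋯ n_k` is a square. The Euler factor of this
series at `p` is, with `v = v_p(M)`,

  `((∏_j (1 - p^{-s_j})⁻¹ + (-1)^v ∏_j (1 + p^{-s_j})⁻¹) / 2 + [v = 0] / p) / (1 + 1 / p)`,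

and it is defined for `Re s_j > 0`, in particular near the point `(1/2, …, 1/2)` of Q1, where the whole series diverges. The
polar divisor of Q1 through `w = 1`, `s_j = 1/2` is expected to describe the mean values of `χ_d(M) ∏_j L(s_j, χ_d)`.

Let `N` be an ARBITRARY integer with at most `K` digits in base `β`, and let `m` arise from `N` by changing `r ≤ K / 2` of
its digits, to prescribed digits different from the old ones. We average over the choices of the `r` positions for which `m`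
is not divisible by the square of any prime `β² < p ≤ x` (the free choices, at least a quarter of all choices). We show for
all `x ≤ c √r`, all `s_j` with `Re s_j ≥ 1/4` and all `M` whose prime factors are between `β²` and `x`: the average of
`χ_m(M) ∏_j L_x(s_j, χ_m)` is the product of the Euler factors of `2 ζ(2) T_M` at the primes `β² < p ≤ x`, up to an error of at
most `3^{-A x}`; here `L_x(s, χ_m) = ∏ (1 - χ_m(p) p^{-s})⁻¹`, the product over the primes `β² < p ≤ x`.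
-/

set_option autoImplicit false

namespace Pool.Agent.Results.MP_fed7ff_nt.FewDigitResidue

open Finset
open Pool.Agent.Q235.FD (change digit)
open Pool.Agent.Q235.FE (primesBetween freeChoices)

/-- `χ_m(M) ∏_j L_x(s_j, χ_m)`, the Euler products over the primes `β² < p ≤ x`; the values of the characters are written as
symbols of Jacobi. -/
noncomputable def twisted {k : ℕ} (β x M : ℕ) (s : Fin k → ℂ) (m : ℤ) : ℂ :=
  (jacobiSym m M : ℂ) * ∏ j, ∏ p ∈ primesBetween β x, (1 - (jacobiSym m p : ℂ) * (p : ℂ) ^ (-s j))⁻¹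

/-- The Euler factor of `2 ζ(2) T_M` at `p`, `v = v_p(M)`. -/
noncomputable def factor {k : ℕ} (M : ℕ) (s : Fin k → ℂ) (p : ℕ) : ℂ :=
  (1 / 2 * (∏ j, (1 - (p : ℂ) ^ (-s j))⁻¹ + (-1) ^ (M.factorization p) * ∏ j, (1 + (p : ℂ) ^ (-s j))⁻¹) +
    (if M.factorization p = 0 then 1 else 0) / p) / (1 + 1 / (p : ℂ))

lemma jacobi_prod (m : ℤ) (P : Finset ℕ) (hP : ∀ p ∈ P, p.Prime) (e : ℕ → ℕ) :
    jacobiSym m (∏ p ∈ P, p ^ e p) = ∏ p ∈ P, jacobiSym m p ^ e p := by
  classical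
  induction P using Finset.induction_on with
  | empty => simp
  | insert a P ha ih =>
    have h1 := ih fun p hp => hP p (mem_insert_of_mem hp)
    have ha0 : a ≠ 0 := (hP a (mem_insert_self a P)).ne_zero
    have : NeZero (a ^ e a) := ⟨pow_ne_zero _ ha0⟩
    have : NeZero (∏ p ∈ P, p ^ e p) :=
      ⟨prod_ne_zero_iff.2 fun p hp => pow_ne_zero _ (hP p (mem_insert_of_mem hp)).ne_zero⟩
    rw [prod_insert ha, prod_insert ha, jacobiSym.mul_right, jacobiSym.pow_right, h1]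

lemma jacobi_eq (m : ℤ) {M : ℕ} (hM : M ≠ 0) {P : Finset ℕ} (hP : ∀ p ∈ P, p.Prime) (hMP : M.primeFactors ⊆ P) :
    jacobiSym m M = ∏ p ∈ P, jacobiSym m p ^ M.factorization p := by
  have h1 : M = ∏ p ∈ P, p ^ M.factorization p := by
    conv_lhs => rw [← Nat.prod_factorization_pow_eq_self hM]
    rw [Finsupp.prod]
    refine prod_subset hMP fun p _ hp => ?_
    rw [Finsupp.notMem_support_iff.1 hp, pow_zero]
  conv_lhs => rw [h1]
  exact jacobi_prod m P hP _

/-- **Twisted shifted moments over numbers with few changed digits.** Let `β ≥ 2` be a base, `k ≥ 0` and `A ≥ 0`. There is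
`c > 0` such that for all `x ≥ 1`, all integers `N` with at most `K` digits in base `β`, all `r ≤ K / 2` with `x ≤ c √r` and
all prescribed new digits `f j` (different from the digits of `N`): at least a quarter of the choices of `r` positions are
free, and for all `M ≥ 1` with prime factors `β² < p ≤ x` and all `s` with `Re s_j ≥ 1/4` the average of
`χ_D(M) ∏_j L_x(s_j, χ_D)` over the free choices, `D = m` or `D = -m`, is the product of the Euler factors of `2 ζ(2) T_M` at the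
primes `β² < p ≤ x`, up to `3^{-A x}`. -/
theorem result (β : ℕ) (hβ : 2 ≤ β) (k : ℕ) (A : ℝ) (hA : 0 ≤ A) : ∃ c : ℝ, 0 < c ∧
    ∀ (x K r N : ℕ) (f : ℕ → ℕ), 1 ≤ x → 2 * r ≤ K → (x : ℝ) ≤ c * Real.sqrt r → N < β ^ K →
      (∀ j, f j < β ∧ f j ≠ digit β j N) →
      (K.choose r : ℝ) / 4 ≤ (freeChoices β K r N f x).card ∧
      ∀ t : ℤ, (t = 1 ∨ t = -1) → ∀ M : ℕ, M ≠ 0 → M.primeFactors ⊆ primesBetween β x →
        ∀ s : Fin k → ℂ, (∀ j, 1 / 4 ≤ (s j).re) →
        ‖(∑ S ∈ freeChoices β K r N f x, twisted β x M s (t * (change β K N f S : ℕ))) /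
            (freeChoices β K r N f x).card - ∏ p ∈ primesBetween β x, factor M s p‖ ≤ (3 : ℝ) ^ (-(A * x)) := by
  obtain ⟨c, hc, H⟩ := Pool.Agent.Q235.FE.free_avg β hβ ((4 : ℝ) ^ k) (one_le_pow₀ (by norm_num)) A hA
  refine ⟨c, hc, fun x K r N f hx hrK hxr hN hf => ?_⟩
  obtain ⟨h1, h2⟩ := H x K r N f hx hrK hxr hN hf
  refine ⟨h1, fun t ht M hM hMP s hs => ?_⟩
  have hpr : ∀ p ∈ primesBetween β x, p.Prime := fun p hp => (Pool.Agent.Q235.FE.mem_between hβ hp).1
  have hsmall : ∀ p ∈ primesBetween β x, ∀ j, ‖(p : ℂ) ^ (-s j)‖ ≤ 3 / 4 := by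
    intro p hp j
    obtain ⟨g1, g2, g3, g4⟩ := Pool.Agent.Q235.FE.mem_between hβ hp
    rw [Complex.norm_natCast_cpow_of_pos g1.pos]
    have hp1 : (1 : ℝ) ≤ p := by exact_mod_cast g1.one_lt.le
    calc (p : ℝ) ^ (-s j).re ≤ (p : ℝ) ^ (-(1 / 4) : ℝ) := by
          apply Real.rpow_le_rpow_of_exponent_le hp1
          rw [Complex.neg_re]
          linarith [hs j]
      _ ≤ (5 : ℝ) ^ (-(1 / 4) : ℝ) :=
          Real.rpow_le_rpow_of_nonpos (by norm_num) (by exact_mod_cast g2) (by norm_num)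
      _ ≤ 3 / 4 := by
        have h3 : ((5 : ℝ) ^ (-(1 / 4) : ℝ)) ^ (4 : ℕ) = 1 / 5 := by
          rw [← Real.rpow_natCast, ← Real.rpow_mul (by norm_num)]
          norm_num
        have h4 : ((5 : ℝ) ^ (-(1 / 4) : ℝ)) ^ (4 : ℕ) ≤ (3 / 4 : ℝ) ^ (4 : ℕ) := by
          rw [h3]
          norm_num
        exact le_of_pow_le_pow_left₀ (by norm_num) (by norm_num) h4
  have hfac : ∀ p ∈ primesBetween β x, ∀ (j : Fin k) (e : ℂ), ‖e‖ ≤ 1 → ‖(1 - e * (p : ℂ) ^ (-s j))⁻¹‖ ≤ 4 := by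
    intro p hp j e he
    have h3 := hsmall p hp j
    have h4 : ‖e * (p : ℂ) ^ (-s j)‖ ≤ 3 / 4 := by
      rw [norm_mul]
      have := norm_nonneg e
      have := norm_nonneg ((p : ℂ) ^ (-s j))
      nlinarith
    have h5 : 1 / 4 ≤ ‖1 - e * (p : ℂ) ^ (-s j)‖ := by
      have := norm_sub_norm_le (1 : ℂ) (e * (p : ℂ) ^ (-s j))
      rw [norm_one] at this
      linarith
    rw [norm_inv]
    exact inv_le_of_inv_le₀ (by norm_num) (by linarith)
  have h3 := h2 t ht (fun p e => (e : ℂ) ^ (M.factorization p) * ∏ j, (1 - (e : ℂ) * (p : ℂ) ^ (-s j))⁻¹) (fun p hp => by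
    have hb : ∀ e : ℤ, ‖(e : ℂ)‖ ≤ 1 →
        ‖(e : ℂ) ^ (M.factorization p) * ∏ j, (1 - (e : ℂ) * (p : ℂ) ^ (-s j))⁻¹‖ ≤ (4 : ℝ) ^ k := by
      intro e he
      rw [norm_mul, norm_pow, norm_prod]
      have k1 : ∏ j, ‖(1 - (e : ℂ) * (p : ℂ) ^ (-s j))⁻¹‖ ≤ (4 : ℝ) ^ k := by
        refine (prod_le_prod (fun _ _ => norm_nonneg _) fun j _ => hfac p hp j e he).trans (le_of_eq ?_)
        rw [prod_const, card_univ, Fintype.card_fin]
      have k2 : ‖(e : ℂ)‖ ^ (M.factorization p) ≤ 1 := pow_le_one₀ (norm_nonneg _) he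
      have k3 : 0 ≤ ∏ j, ‖(1 - (e : ℂ) * (p : ℂ) ^ (-s j))⁻¹‖ := prod_nonneg fun _ _ => norm_nonneg _
      calc _ ≤ 1 * ∏ j, ‖(1 - (e : ℂ) * (p : ℂ) ^ (-s j))⁻¹‖ := mul_le_mul_of_nonneg_right k2 k3
        _ ≤ (4 : ℝ) ^ k := by rw [one_mul]; exact k1
    exact ⟨hb 0 (by simp), hb 1 (by simp), hb (-1) (by simp)⟩)
  have e1 : ∑ S ∈ freeChoices β K r N f x, twisted β x M s (t * (change β K N f S : ℕ)) =
      ∑ S ∈ freeChoices β K r N f x, ∏ p ∈ primesBetween β x,
        (((jacobiSym (t * (change β K N f S : ℕ)) p : ℤ) : ℂ) ^ (M.factorization p) *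
        ∏ j, (1 - ((jacobiSym (t * (change β K N f S : ℕ)) p : ℤ) : ℂ) * (p : ℂ) ^ (-s j))⁻¹) := by
    refine sum_congr rfl fun S _ => ?_
    unfold twisted
    rw [prod_mul_distrib, jacobi_eq _ hM hpr hMP, prod_comm]
    push_cast
    rfl
  have e2 : ∏ p ∈ primesBetween β x, factor M s p =
      ∏ p ∈ primesBetween β x, Pool.Agent.Q235.FE.local0 p
        (fun e : ℤ => (e : ℂ) ^ (M.factorization p) * ∏ j, (1 - (e : ℂ) * (p : ℂ) ^ (-s j))⁻¹) := by
    refine prod_congr rfl fun p hp => ?_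
    unfold factor Pool.Agent.Q235.FE.local0
    have h7 : ((0 : ℤ) : ℂ) ^ (M.factorization p) * ∏ j : Fin k, (1 - ((0 : ℤ) : ℂ) * (p : ℂ) ^ (-s j))⁻¹ =
        if M.factorization p = 0 then 1 else 0 := by
      have h8 : ∏ j : Fin k, (1 - ((0 : ℤ) : ℂ) * (p : ℂ) ^ (-s j))⁻¹ = 1 := by
        refine prod_eq_one fun j _ => ?_
        simp
      rw [h8, mul_one, Int.cast_zero]
      split_ifs with h
      · rw [h, pow_zero]
      · exact zero_pow h
    have h8 : ((1 : ℤ) : ℂ) ^ (M.factorization p) * ∏ j : Fin k, (1 - ((1 : ℤ) : ℂ) * (p : ℂ) ^ (-s j))⁻¹ =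
        ∏ j : Fin k, (1 - (p : ℂ) ^ (-s j))⁻¹ := by
      rw [Int.cast_one, one_pow, one_mul]
      refine prod_congr rfl fun j _ => ?_
      rw [one_mul]
    have h9 : ((-1 : ℤ) : ℂ) ^ (M.factorization p) * ∏ j : Fin k, (1 - ((-1 : ℤ) : ℂ) * (p : ℂ) ^ (-s j))⁻¹ =
        (-1) ^ (M.factorization p) * ∏ j : Fin k, (1 + (p : ℂ) ^ (-s j))⁻¹ := by
      rw [Int.cast_neg, Int.cast_one]
      congr 1
      refine prod_congr rfl fun j _ => ?_
      rw [neg_one_mul, sub_neg_eq_add]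
    beta_reduce
    rw [h7, h8, h9]
  rw [e1, e2]
  exact h3

end Pool.Agent.Results.MP_fed7ff_nt.FewDigitResidue
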