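import Pool.Agent.Q77.FL.Mean

/-!
# Twisted shifted moments of truncated quadratic `L`-functions over `D = ⌊w i ^ c + P(i)⌋`

The multiple Dirichlet series `A_M(s₁, …, s_k; w)` of the problem has its first pole at `w = 1`, with the residue `T_M`,
`2 ζ(2) T_M = ∑ a(M n₁ ⋯ n_k) ∏ n_j^{-s_j}`, the sum over the `n_j` for which `M n₁ ⋯ n_k` is a square. The Euler factor of this
series at `p` is, with `v = v_p(M)`,

  `((∏_j (1 - p^{-s_j})⁻¹ + (-1)^v ∏_j (1 + p^{-s_j})⁻¹) / 2 + [v = 0] / p) / (1 + 1 / p)`,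

and it is defined for `Re s_j > 0`, in particular near the point `(1/2, …, 1/2)` of Q1, where the whole series diverges.

Let `c > 1` be not an integer, `w ≠ 0` real. We show: for all large `x`, ALL real polynomials `P` of degree less than `c` and
all `y ≤ κ log x`, the mean value of `χ_D(M) ∏_j L_y(s_j, χ_D)` over the numbers `D = ⌊w i ^ c + P(i)⌋`, `i ≤ x`, which are not
divisible by the square of an odd prime `p ≤ y`, is the product of these Euler factors over the odd primes `p ≤ y`, up to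
`x ^ (-κ)`, uniformly in `P`, in `M` (with odd prime factors up to `y`) and in the `s_j` with `Re s_j ≥ σ`, for any fixed `σ > 0`.
-/

set_option autoImplicit false

namespace Pool.Agent.Results.MP_fed7ff_nt.ResidueNearPowers

open Finset Filter Polynomial
open Pool.Agent.Q77.FL (oddPrimes)

/-- `D_i = ⌊w i ^ c + P(i)⌋` -/
noncomputable def member (c w : ℝ) (P : ℝ[X]) (i : ℕ) : ℤ := ⌊w * (i : ℝ) ^ c + P.eval (i : ℝ)⌋

/-- `D` is not divisible by the square of any odd prime `p ≤ y`. -/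
def Free (y : ℕ) (D : ℤ) : Prop := ∀ p ∈ oddPrimes y, ¬ (p : ℤ) ^ 2 ∣ D

open Classical in
/-- the `i ≤ x` for which `D_i` is free -/
noncomputable def freeIndices (c w : ℝ) (P : ℝ[X]) (x y : ℕ) : Finset ℕ :=
  (Icc 1 x).filter fun i => Free y (member c w P i)

/-- `χ_D(M) ∏_j L_y(s_j, χ_D)`, the Euler products over the odd primes `p ≤ y`; the values of the characters are written as
symbols of Jacobi. -/
noncomputable def twisted {k : ℕ} (y M : ℕ) (s : Fin k → ℂ) (D : ℤ) : ℂ :=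
  (jacobiSym D M : ℂ) * ∏ j, ∏ p ∈ oddPrimes y, (1 - (jacobiSym D p : ℂ) * (p : ℂ) ^ (-s j))⁻¹

/-- The Euler factor of `2 ζ(2) T_M` at `p`, `v = v_p(M)`. -/
noncomputable def factor {k : ℕ} (M : ℕ) (s : Fin k → ℂ) (p : ℕ) : ℂ :=
  (1 / 2 * (∏ j, (1 - (p : ℂ) ^ (-s j))⁻¹ + (-1) ^ (M.factorization p) * ∏ j, (1 + (p : ℂ) ^ (-s j))⁻¹) +
    (if M.factorization p = 0 then 1 else 0) / p) / (1 + 1 / (p : ℂ))

lemma jacobi_prod (m : ℤ) (P : Finset ℕ) (hP : ∀ p ∈ P, p.Prime) (e : ℕ → ℕ) :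
    jacobiSym m (∏ p ∈ P, p ^ e p) = ∏ p ∈ P, jacobiSym m p ^ e p := by
  classical
  induction P using Finset.induction_on with
  | empty => simp
  | insert a P ha ih =>
    have h1 := ih fun p hp => hP p (mem_insert_of_mem hp)
    have ha0 : a ≠ 0 := (hP a (mem_insert_self a P)).ne_zero
    have : NeZero (a ^ e a) := ⟨pow_ne_zero _ ha0⟩
    have : NeZero (∏ p ∈ P, p ^ e p) :=
      ⟨prod_ne_zero_iff.2 fun p hp => pow_ne_zero _ (hP p (mem_insert_of_mem hp)).ne_zero⟩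
    rw [prod_insert ha, prod_insert ha, jacobiSym.mul_right, jacobiSym.pow_right, h1]

lemma jacobi_eq (m : ℤ) {M : ℕ} (hM : M ≠ 0) {P : Finset ℕ} (hP : ∀ p ∈ P, p.Prime) (hMP : M.primeFactors ⊆ P) :
    jacobiSym m M = ∏ p ∈ P, jacobiSym m p ^ M.factorization p := by
  have h1 : M = ∏ p ∈ P, p ^ M.factorization p := by
    conv_lhs => rw [← Nat.prod_factorization_pow_eq_self hM]
    rw [Finsupp.prod]
    refine prod_subset hMP fun p _ hp => ?_
    rw [Finsupp.notMem_support_iff.1 hp, pow_zero]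
  conv_lhs => rw [h1]
  exact jacobi_prod m P hP _

/-- a product over `3 ≤ p ≤ y` of `1 - 1 / p ^ 2` is at least `1 / 2` -/
lemma dens_ge (y : ℕ) : (1 / 2 : ℝ) ≤ ∏ p ∈ oddPrimes y, (1 - 1 / (p : ℝ) ^ 2) := by
  have h1 : ∀ n : ℕ, 1 / 2 ≤ ∏ m ∈ Ico 2 (n + 2), (1 - 1 / (m : ℝ) ^ 2) := by
    intro n
    have h2 : ∏ m ∈ Ico 2 (n + 2), (1 - 1 / (m : ℝ) ^ 2) = ((n : ℝ) + 2) / (2 * ((n : ℝ) + 1)) := by
      induction n with
      | zero => simp
      | succ n ih =>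
        rw [show n + 1 + 2 = (n + 2) + 1 by ring, prod_Ico_succ_top (by omega), ih]
        push_cast
        field_simp
        ring
    rw [h2, div_le_div_iff₀ (by norm_num) (by positivity)]
    have : (0 : ℝ) ≤ n := Nat.cast_nonneg n
    linarith
  refine (h1 y).trans ?_
  apply prod_le_prod_of_subset_of_le_one
  · intro p hp
    obtain ⟨_, h2, h3, _⟩ := Pool.Agent.Q77.FL.mem_odd hp
    exact mem_Ico.2 ⟨by omega, by omega⟩
  · intro p hp
    have h2 : (2 : ℝ) ≤ p := by exact_mod_cast (mem_Ico.1 hp).1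
    have h3 : 1 / (p : ℝ) ^ 2 ≤ 1 := by
      rw [div_le_one (by positivity)]
      nlinarith
    linarith
  · intro p _ _
    have : 0 ≤ 1 / (p : ℝ) ^ 2 := by positivity
    linarith

lemma prod_loc (g : ℕ → ℤ → ℂ) (y : ℕ) (D : ℤ) [Decidable (Free y D)] :
    ∏ p ∈ oddPrimes y, Pool.Agent.Q77.FL.loc g p D = if Free y D then ∏ p ∈ oddPrimes y, g p (jacobiSym D p) else 0 := by
  split_ifs with h
  · refine prod_congr rfl fun p hp => ?_
    unfold Pool.Agent.Q77.FL.loc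
    rw [if_neg (h p hp)]
  · unfold Free at h
    push Not at h
    obtain ⟨p, hp, h1⟩ := h
    refine prod_eq_zero hp ?_
    unfold Pool.Agent.Q77.FL.loc
    rw [if_pos h1]

/-- the local functions -/
noncomputable def gg {k : ℕ} (M : ℕ) (s : Fin k → ℂ) (p : ℕ) (e : ℤ) : ℂ :=
  (e : ℂ) ^ (M.factorization p) * ∏ j, (1 - (e : ℂ) * (p : ℂ) ^ (-s j))⁻¹

lemma twisted_eq {k : ℕ} (y : ℕ) {M : ℕ} (hM : M ≠ 0) (hMP : M.primeFactors ⊆ oddPrimes y) (s : Fin k → ℂ) (D : ℤ) :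
    twisted y M s D = ∏ p ∈ oddPrimes y, gg M s p (jacobiSym D p) := by
  unfold twisted gg
  rw [prod_mul_distrib, jacobi_eq _ hM (fun p hp => (Pool.Agent.Q77.FL.mem_odd hp).1) hMP, Finset.prod_comm]
  push_cast
  rfl

lemma factor_eq {k : ℕ} (M : ℕ) (s : Fin k → ℂ) (p : ℕ) : factor M s p = Pool.Agent.Q235.FE.local0 p (gg M s p) := by
  unfold factor Pool.Agent.Q235.FE.local0 gg
  have h7 : ((0 : ℤ) : ℂ) ^ (M.factorization p) * ∏ j : Fin k, (1 - ((0 : ℤ) : ℂ) * (p : ℂ) ^ (-s j))⁻¹ =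
      if M.factorization p = 0 then 1 else 0 := by
    have h8 : ∏ j : Fin k, (1 - ((0 : ℤ) : ℂ) * (p : ℂ) ^ (-s j))⁻¹ = 1 := by
      refine prod_eq_one fun j _ => ?_
      simp
    rw [h8, mul_one, Int.cast_zero]
    split_ifs with h
    · rw [h, pow_zero]
    · exact zero_pow h
  have h8 : ((1 : ℤ) : ℂ) ^ (M.factorization p) * ∏ j : Fin k, (1 - ((1 : ℤ) : ℂ) * (p : ℂ) ^ (-s j))⁻¹ =
      ∏ j : Fin k, (1 - (p : ℂ) ^ (-s j))⁻¹ := by
    rw [Int.cast_one, one_pow, one_mul]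
    refine prod_congr rfl fun j _ => ?_
    rw [one_mul]
  have h9 : ((-1 : ℤ) : ℂ) ^ (M.factorization p) * ∏ j : Fin k, (1 - ((-1 : ℤ) : ℂ) * (p : ℂ) ^ (-s j))⁻¹ =
      (-1) ^ (M.factorization p) * ∏ j : Fin k, (1 + (p : ℂ) ^ (-s j))⁻¹ := by
    rw [Int.cast_neg, Int.cast_one]
    congr 1
    refine prod_congr rfl fun j _ => ?_
    rw [neg_one_mul, sub_neg_eq_add]
  rw [h7, h8, h9]

lemma gg_norm {k : ℕ} {σ : ℝ} (hσ : 0 < σ) (M : ℕ) {s : Fin k → ℂ} (hs : ∀ j, σ ≤ (s j).re) {p : ℕ} (hp : 3 ≤ p)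
    (e : ℤ) (he : e = 0 ∨ e = 1 ∨ e = -1) : ‖gg M s p e‖ ≤ ((1 - (3 : ℝ) ^ (-σ))⁻¹) ^ k := by
  have h3 : (3 : ℝ) ^ (-σ) < 1 := Real.rpow_lt_one_of_one_lt_of_neg (by norm_num) (by linarith)
  have hen : ‖(e : ℂ)‖ ≤ 1 := by rcases he with h | h | h <;> rw [h] <;> simp
  have hps : ∀ j, ‖(p : ℂ) ^ (-s j)‖ ≤ (3 : ℝ) ^ (-σ) := by
    intro j
    rw [Complex.norm_natCast_cpow_of_pos (by omega)]
    have hp1 : (1 : ℝ) ≤ p := by exact_mod_cast (by omega : 1 ≤ p)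
    calc (p : ℝ) ^ (-s j).re ≤ (p : ℝ) ^ (-σ) := by
          apply Real.rpow_le_rpow_of_exponent_le hp1
          rw [Complex.neg_re]
          linarith [hs j]
      _ ≤ (3 : ℝ) ^ (-σ) :=
          Real.rpow_le_rpow_of_nonpos (by norm_num) (by exact_mod_cast hp) (by linarith)
  unfold gg
  rw [norm_mul, norm_pow, norm_prod]
  have k1 : ∏ j, ‖(1 - (e : ℂ) * (p : ℂ) ^ (-s j))⁻¹‖ ≤ ((1 - (3 : ℝ) ^ (-σ))⁻¹) ^ k := by
    have k0 : ∀ j, ‖(1 - (e : ℂ) * (p : ℂ) ^ (-s j))⁻¹‖ ≤ (1 - (3 : ℝ) ^ (-σ))⁻¹ := by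
      intro j
      rw [norm_inv]
      apply inv_anti₀ (by linarith)
      have h4 : ‖(e : ℂ) * (p : ℂ) ^ (-s j)‖ ≤ (3 : ℝ) ^ (-σ) := by
        rw [norm_mul]
        have h5 := hps j
        have h6 := norm_nonneg ((p : ℂ) ^ (-s j))
        calc ‖(e : ℂ)‖ * ‖(p : ℂ) ^ (-s j)‖ ≤ 1 * ‖(p : ℂ) ^ (-s j)‖ := mul_le_mul_of_nonneg_right hen h6
          _ ≤ _ := by rw [one_mul]; exact h5
      have := norm_sub_norm_le (1 : ℂ) ((e : ℂ) * (p : ℂ) ^ (-s j))
      rw [norm_one] at this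
      linarith
    refine (prod_le_prod (fun _ _ => norm_nonneg _) fun j _ => k0 j).trans (le_of_eq ?_)
    rw [prod_const, card_univ, Fintype.card_fin]
  have k2 : ‖(e : ℂ)‖ ^ (M.factorization p) ≤ 1 := pow_le_one₀ (norm_nonneg _) hen
  have k3 : 0 ≤ ∏ j, ‖(1 - (e : ℂ) * (p : ℂ) ^ (-s j))⁻¹‖ := prod_nonneg fun _ _ => norm_nonneg _
  calc _ ≤ 1 * ∏ j, ‖(1 - (e : ℂ) * (p : ℂ) ^ (-s j))⁻¹‖ := mul_le_mul_of_nonneg_right k2 k3
    _ ≤ _ := by rw [one_mul]; exact k1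

/-- **Twisted shifted moments over the integer parts of a power and a polynomial.** Let `c > 1` be not an integer, `w ≠ 0`,
`k ≥ 0` and `σ > 0`. There is `κ > 0` such that for all large `x`, all real polynomials `P` of degree less than `c` and all
`y ≤ κ log x`: the proportion of the `i ≤ x` for which `D_i = ⌊w i ^ c + P(i)⌋` is not divisible by the square of an odd prime
`p ≤ y` is `∏ (1 - 1 / p ^ 2)` up to `x ^ (-κ)`, and for all `M ≥ 1` with odd prime factors `p ≤ y` and all `s` with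
`Re s_j ≥ σ` the average of `χ_D(M) ∏_j L_y(s_j, χ_D)` over these `D = D_i` is the product of the Euler factors of `2 ζ(2) T_M` at the
odd primes `p ≤ y`, up to `x ^ (-κ)`. -/
theorem result (c w : ℝ) (hc : 1 < c) (hn : ∀ m : ℕ, c ≠ m) (hw : w ≠ 0) (k : ℕ) (σ : ℝ) (hσ : 0 < σ) :
    ∃ κ : ℝ, 0 < κ ∧ ∃ x₀ : ℕ, ∀ x : ℕ, x₀ ≤ x → ∀ P : ℝ[X], (P.natDegree : ℝ) < c →
      ∀ y : ℕ, (y : ℝ) ≤ κ * Real.log x →
        |((freeIndices c w P x y).card : ℝ) / x - ∏ p ∈ oddPrimes y, (1 - 1 / (p : ℝ) ^ 2)| ≤ (x : ℝ) ^ (-κ) ∧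
        ∀ M : ℕ, M ≠ 0 → M.primeFactors ⊆ oddPrimes y → ∀ s : Fin k → ℂ, (∀ j, σ ≤ (s j).re) →
          ‖(∑ i ∈ freeIndices c w P x y, twisted y M s (member c w P i)) / (freeIndices c w P x y).card -
            ∏ p ∈ oddPrimes y, factor M s p‖ ≤ (x : ℝ) ^ (-κ) := by
  classical
  obtain ⟨η, hη, x₁, hx₁, H⟩ := Pool.Agent.Q77.FL.law hc hn hw
  have h3 : (3 : ℝ) ^ (-σ) < 1 := Real.rpow_lt_one_of_one_lt_of_neg (by norm_num) (by linarith)
  have h30 : 0 < (3 : ℝ) ^ (-σ) := Real.rpow_pos_of_pos (by norm_num) _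
  obtain ⟨B, hBdef⟩ : ∃ B : ℝ, B = ((1 - (3 : ℝ) ^ (-σ))⁻¹) ^ k := ⟨_, rfl⟩
  have hB : 1 ≤ B := by
    rw [hBdef]
    apply one_le_pow₀
    rw [one_le_inv₀ (by linarith)]
    linarith
  obtain ⟨Λ, hΛ⟩ : ∃ Λ : ℝ, Λ = Real.log (16 * B) := ⟨_, rfl⟩
  have hΛ1 : 1 ≤ Λ := by
    rw [hΛ, Real.le_log_iff_exp_le (by linarith)]
    have := Real.exp_one_lt_d9
    linarith
  obtain ⟨κ, hκ⟩ : ∃ κ : ℝ, κ = η / 4 / Λ := ⟨_, rfl⟩
  have hκ0 : 0 < κ := by rw [hκ]; positivity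
  have hκΛ : κ * Λ = η / 4 := by rw [hκ]; field_simp
  have hκη : κ ≤ η / 4 := by
    rw [hκ]
    exact div_le_self (by positivity) hΛ1
  have hev : ∀ᶠ x : ℕ in atTop, 12 ≤ (x : ℝ) ^ (η / 4) :=
    ((tendsto_rpow_atTop (show 0 < η / 4 by positivity)).comp tendsto_natCast_atTop_atTop).eventually_ge_atTop _
  obtain ⟨x₂, hx₂⟩ := eventually_atTop.1 hev
  refine ⟨κ, hκ0, x₁ + x₂ + 1, fun x hx P hP y hy => ?_⟩
  have hx0 : (0 : ℝ) < x := by exact_mod_cast (by omega : 0 < x)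
  have hx1' : (1 : ℝ) ≤ x := by exact_mod_cast (by omega : 1 ≤ x)
  have hx12 := hx₂ x (by omega)
  obtain ⟨z, hz⟩ : ∃ z : ℝ, z = (x : ℝ) ^ (η / 4) := ⟨_, rfl⟩
  rw [← hz] at hx12
  have hz0 : 0 < z := by linarith
  have hyB : (16 * B) ^ y ≤ z := by
    have h1 : (16 * B) ^ y = Real.exp (y * Λ) := by
      rw [hΛ, ← Real.rpow_natCast, Real.rpow_def_of_pos (by linarith)]
      congr 1
      ring
    rw [h1, hz, Real.rpow_def_of_pos hx0]
    apply Real.exp_le_exp.2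
    calc (y : ℝ) * Λ ≤ κ * Real.log x * Λ := mul_le_mul_of_nonneg_right hy (by linarith)
      _ = (κ * Λ) * Real.log x := by ring
      _ = Real.log x * (η / 4) := by rw [hκΛ]; ring
  have hz4 : z ^ 4 = (x : ℝ) ^ η := by
    rw [hz, ← Real.rpow_natCast, ← Real.rpow_mul hx0.le]
    congr 1
    push_cast
    ring
  have h16 : (16 : ℝ) ^ y ≤ (x : ℝ) ^ η := by
    rw [← hz4]
    calc (16 : ℝ) ^ y ≤ (16 * B) ^ y := pow_le_pow_left₀ (by norm_num) (by linarith) y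
      _ ≤ z := hyB
      _ = z ^ 1 := (pow_one z).symm
      _ ≤ z ^ 4 := pow_le_pow_right₀ (by linarith) (by norm_num)
  have hE : (16 * B) ^ y * (x : ℝ) ^ (1 - η) ≤ x / z ^ 3 := by
    rw [Real.rpow_sub hx0, Real.rpow_one, ← hz4]
    calc (16 * B) ^ y * (x / z ^ 4) ≤ z * (x / z ^ 4) := mul_le_mul_of_nonneg_right hyB (by positivity)
      _ = x / z ^ 3 := by field_simp
  have hκz : 1 / z ≤ (x : ℝ) ^ (-κ) := by
    rw [hz, one_div, ← Real.rpow_neg hx0.le]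
    exact Real.rpow_le_rpow_of_exponent_le hx1' (by linarith)
  -- the number of the free indices
  obtain ⟨N, hN⟩ : ∃ N : ℝ, N = ((freeIndices c w P x y).card : ℝ) := ⟨_, rfl⟩
  obtain ⟨Z, hZ⟩ : ∃ Z : ℝ, Z = ∏ p ∈ oddPrimes y, (1 - 1 / (p : ℝ) ^ 2) := ⟨_, rfl⟩
  have hZ2 : 1 / 2 ≤ Z := by rw [hZ]; exact dens_ge y
  have hZc : ∏ p ∈ oddPrimes y, (1 - 1 / (p : ℂ) ^ 2) = (Z : ℂ) := by
    rw [hZ]
    push_cast
    rfl
  have hN1 : |N - x * Z| ≤ x / z ^ 3 := by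
    obtain ⟨h1, _⟩ := H x (by omega) P hP y h16 B hB (fun _ _ => 1) (fun p _ e _ => by rw [norm_one]; exact hB)
    have e1 : ∑ i ∈ Icc 1 x, ∏ p ∈ oddPrimes y, Pool.Agent.Q77.FL.loc (fun _ _ => 1) p ⌊w * (i : ℝ) ^ c + P.eval (i : ℝ)⌋ = (N : ℂ) := by
      simp only [prod_loc, prod_const_one]
      rw [hN, freeIndices, Finset.card_filter]
      push_cast
      refine sum_congr rfl fun i _ => ?_
      unfold member
      split_ifs <;> rfl
    have e2 : ∏ p ∈ oddPrimes y, ((1 - 1 / (p : ℂ) ^ 2) * Pool.Agent.Q235.FE.local0 p (fun _ => 1)) = (Z : ℂ) := by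
      rw [← hZc]
      refine prod_congr rfl fun p hp => ?_
      have hp0 : (p : ℂ) ≠ 0 := by exact_mod_cast (Pool.Agent.Q77.FL.mem_odd hp).1.ne_zero
      have hp1 : (1 : ℂ) + 1 / p ≠ 0 := by
        have : ((p : ℂ) + 1) ≠ 0 := by exact_mod_cast (Nat.succ_ne_zero p)
        rw [show (1 : ℂ) + 1 / p = (p + 1) / p by field_simp]
        exact div_ne_zero this hp0
      have : Pool.Agent.Q235.FE.local0 p (fun _ => 1) = 1 := by
        unfold Pool.Agent.Q235.FE.local0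
        rw [div_eq_one_iff_eq hp1]
        norm_num
      rw [this, mul_one]
    rw [e1, e2] at h1
    have h2 : (N : ℂ) - (x : ℂ) * (Z : ℂ) = ((N - x * Z : ℝ) : ℂ) := by push_cast; ring
    rw [h2, Complex.norm_real] at h1
    exact h1.trans hE
  have hz3 : 4 ≤ z ^ 3 := by
    have : z ^ 3 ≥ 12 ^ 3 := pow_le_pow_left₀ (by norm_num) hx12 3
    linarith
  have hN2 : x / 4 ≤ N := by
    have h1 := (abs_le.1 hN1).1
    have h2 : x / z ^ 3 ≤ x / 4 := div_le_div_of_nonneg_left hx0.le (by norm_num) hz3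
    have h3 : x * (1 / 2) ≤ x * Z := mul_le_mul_of_nonneg_left hZ2 hx0.le
    linarith
  refine ⟨?_, fun M hM hMP s hs => ?_⟩
  · rw [← hN, ← hZ]
    have h1 : N / x - Z = (N - x * Z) / x := by field_simp
    rw [h1, abs_div, abs_of_pos hx0, div_le_iff₀ hx0]
    refine hN1.trans (le_trans ?_ (mul_le_mul_of_nonneg_right hκz hx0.le))
    rw [one_div, inv_mul_eq_div]
    apply div_le_div_of_nonneg_left hx0.le hz0
    calc z = z ^ 1 := (pow_one z).symm
      _ ≤ z ^ 3 := pow_le_pow_right₀ (by linarith) (by norm_num)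
  · obtain ⟨h1, h2⟩ := H x (by omega) P hP y h16 B hB (gg M s) (fun p hp e he => by
      rw [hBdef]
      exact gg_norm hσ M hs (Pool.Agent.Q77.FL.mem_odd hp).2.1 e he)
    obtain ⟨S, hS⟩ : ∃ S : ℂ, S = ∑ i ∈ freeIndices c w P x y, twisted y M s (member c w P i) := ⟨_, rfl⟩
    obtain ⟨L, hL⟩ : ∃ L : ℂ, L = ∏ p ∈ oddPrimes y, factor M s p := ⟨_, rfl⟩
    have e1 : ∑ i ∈ Icc 1 x, ∏ p ∈ oddPrimes y, Pool.Agent.Q77.FL.loc (gg M s) p ⌊w * (i : ℝ) ^ c + P.eval (i : ℝ)⌋ = S := by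
      simp only [prod_loc]
      rw [hS, freeIndices, sum_filter]
      refine sum_congr rfl fun i _ => ?_
      unfold member
      congr 1
      exact (twisted_eq y hM hMP s _).symm
    have e2 : ∏ p ∈ oddPrimes y, ((1 - 1 / (p : ℂ) ^ 2) * Pool.Agent.Q235.FE.local0 p (gg M s p)) = Z * L := by
      rw [prod_mul_distrib, hZc, hL]
      congr 1
      exact prod_congr rfl fun p _ => (factor_eq M s p).symm
    rw [e1, e2] at h1
    rw [e2] at h2
    have hL2 : ‖L‖ ≤ 2 * z := by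
      rw [norm_mul, Complex.norm_real, Real.norm_eq_abs, abs_of_pos (by linarith : 0 < Z)] at h2
      have h4 : B ^ y ≤ z := by
        refine le_trans ?_ hyB
        exact pow_le_pow_left₀ (by linarith) (by linarith) y
      have h5 := norm_nonneg L
      nlinarith
    have hNpos : 0 < N := by linarith [div_pos hx0 (by norm_num : (0 : ℝ) < 4)]
    have hNc : (N : ℂ) ≠ 0 := by exact_mod_cast hNpos.ne'
    have e3 : ((freeIndices c w P x y).card : ℂ) = (N : ℂ) := by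
      rw [hN]
      push_cast
      rfl
    rw [← hS, ← hL, e3]
    have e4 : S / N - L = ((S - x * (Z * L)) - L * ((N : ℂ) - x * Z)) / N := by
      field_simp
      ring
    rw [e4, norm_div, Complex.norm_real, Real.norm_eq_abs, abs_of_pos hNpos, div_le_iff₀ hNpos]
    have h6 : ‖(N : ℂ) - x * Z‖ ≤ x / z ^ 3 := by
      have h2 : (N : ℂ) - (x : ℂ) * (Z : ℂ) = ((N - x * Z : ℝ) : ℂ) := by push_cast; ring
      rw [h2, Complex.norm_real]
      exact hN1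
    calc ‖(S - x * (Z * L)) - L * ((N : ℂ) - x * Z)‖ ≤ ‖S - x * (Z * L)‖ + ‖L‖ * ‖(N : ℂ) - x * Z‖ := by
          refine (norm_sub_le _ _).trans ?_
          rw [norm_mul]
      _ ≤ x / z ^ 3 + (2 * z) * (x / z ^ 3) := by
          apply add_le_add (h1.trans hE)
          exact mul_le_mul hL2 h6 (norm_nonneg _) (by positivity)
      _ ≤ (1 / z) * (x / 4) := by
          have e5 : x / z ^ 3 + (2 * z) * (x / z ^ 3) = (x / z) * ((1 + 2 * z) / z ^ 2) := by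
            field_simp
          have e6 : (1 / z) * (x / 4) = (x / z) * (1 / 4) := by ring
          rw [e5, e6]
          apply mul_le_mul_of_nonneg_left _ (by positivity)
          rw [div_le_div_iff₀ (by positivity) (by norm_num)]
          nlinarith
      _ ≤ (x : ℝ) ^ (-κ) * N := mul_le_mul hκz hN2 (by positivity) (by positivity)

end Pool.Agent.Results.MP_fed7ff_nt.ResidueNearPowers
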